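import Pool.Agent.L0h20.AS.Stm

set_option autoImplicit false
set_option linter.all false

/-!
# Project AS (helper20): the lines of a proof are true on all branches
-/

namespace Pool.Agent.L0h84.AS

open Pool.Agent.L0h36.BG Pool.Agent.L0h36.BF Pool.Agent.L0h20.SY Pool.Agent.L0h20.AS

variable {p n : ℕ}

theorem self_mem_subs' (φ : Fml p (Finset (Fin n))) : φ ∈ φ.subs := by
  cases φ with
  | var x => exact rfl
  | _ => exact Set.mem_insert _ _

theorem subs_trans' {φ ψ : Fml p (Finset (Fin n))} (h : ψ ∈ φ.subs) : ψ.subs ⊆ φ.subs := by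
  induction φ with
  | var x =>
    have : ψ = Fml.var x := h
    rw [this]
  | neg φ ih =>
    rcases h with h | h
    · rw [h]
    · exact (ih h).trans (Set.subset_insert _ _)
  | and k f ih =>
    rcases h with h | h
    · rw [h]
    · obtain ⟨j, hj⟩ := Set.mem_iUnion.1 h
      exact (ih j hj).trans ((Set.subset_iUnion (fun j => (f j).subs) j).trans
        (Set.subset_insert _ _))
  | or k f ih =>
    rcases h with h | h
    · rw [h]
    · obtain ⟨j, hj⟩ := Set.mem_iUnion.1 h
      exact (ih j hj).trans ((Set.subset_iUnion (fun j => (f j).subs) j).trans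
        (Set.subset_insert _ _))
  | mod i k f ih =>
    rcases h with h | h
    · rw [h]
    · obtain ⟨j, hj⟩ := Set.mem_iUnion.1 h
      exact (ih j hj).trans ((Set.subset_iUnion (fun j => (f j).subs) j).trans
        (Set.subset_insert _ _))

theorem occ_closed (π : List (Fml p (Finset (Fin n)))) : ClosedS (Occurring π) := by
  refine ⟨?_, ?_, ?_, ?_⟩
  · rintro φ ⟨A, hA, h⟩
    exact ⟨A, hA, subs_trans' h (Set.mem_insert_of_mem _ (self_mem_subs' φ))⟩
  · rintro k f ⟨A, hA, h⟩ j
    exact ⟨A, hA, subs_trans' h (Set.mem_insert_of_mem _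
      (Set.mem_iUnion.2 ⟨j, self_mem_subs' (f j)⟩))⟩
  · rintro k f ⟨A, hA, h⟩ j
    exact ⟨A, hA, subs_trans' h (Set.mem_insert_of_mem _
      (Set.mem_iUnion.2 ⟨j, self_mem_subs' (f j)⟩))⟩
  · rintro i k f ⟨A, hA, h⟩ j
    exact ⟨A, hA, subs_trans' h (Set.mem_insert_of_mem _
      (Set.mem_iUnion.2 ⟨j, self_mem_subs' (f j)⟩))⟩

/-- A set whose size is a multiple of `q` has a partition into sets of size `q`. -/
theorem exists_part {q : ℕ} (a : ℕ) : ∀ U : Finset (Fin n), U.card = q * a →
    ∃ P : Finset (Finset (Fin n)), PM q P ∧ cov P = U := by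
  classical
  induction a with
  | zero =>
    intro U hU
    rw [Nat.mul_zero, Finset.card_eq_zero] at hU
    exact ⟨∅, PM.empty q, by rw [hU]; rfl⟩
  | succ a ih =>
    intro U hU
    obtain ⟨b, hb, hbc⟩ := Finset.exists_subset_card_eq (s := U) (n := q) (by
      rw [hU, Nat.mul_succ]
      omega)
    obtain ⟨P, h1, h2⟩ := ih (U \ b) (by
      rw [Finset.card_sdiff_of_subset hb, hU, hbc, Nat.mul_succ]
      omega)
    refine ⟨insert b P, h1.cons hbc ?_, ?_⟩
    · rw [h2]
      exact Finset.disjoint_sdiff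
    · rw [cov_insert, h2]
      exact Finset.union_sdiff_of_subset hb

/-- Extension of a system so that all formulas of a list are decided. -/
theorem extend (h1 : S_ROO) {q t : ℕ} (hq : 1 ≤ q) {ρ : Finset (Finset (Fin n))}
    (T : Fml p (Finset (Fin n)) → DT (Fin n)) (l : List (Fml p (Finset (Fin n)))) :
    ∀ r : Finset (Finset (Fin n)), PM q r → ρ ⊆ r → (∀ ψ ∈ l, Dep q (T ψ) ρ t) →
      q * (r.card + l.length * t + 1) ≤ n →
      ∃ r' : Finset (Finset (Fin n)), PM q r' ∧ r ⊆ r' ∧ r'.card ≤ r.card + l.length * t ∧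
        ∀ ψ ∈ l, ∃ (m : Finset (Finset (Fin n))) (b : Bool), Br q (T ψ) ρ m b ∧ m ⊆ r' := by
  induction l with
  | nil =>
    intro r hr hρr _ _
    exact ⟨r, hr, Finset.Subset.refl _, by simp, by simp⟩
  | cons ψ l ih =>
    intro r hr hρr hdep hn
    rw [List.length_cons, Nat.succ_mul] at hn
    have e1 : q * (r.card + t + 1) ≤ n := by
      refine le_trans (Nat.mul_le_mul_left _ ?_) hn
      omega
    obtain ⟨m, b, hm, hpm, hc⟩ := h1 q n t (T ψ) ρ r hq hr hρr (hdep ψ List.mem_cons_self) e1
    have hcard : (m ∪ r).card ≤ r.card + t := by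
      have h2 : m ∪ r ⊆ r ∪ (m \ ρ) := by
        intro x hx
        rcases Finset.mem_union.1 hx with hx | hx
        · by_cases hxρ : x ∈ ρ
          · exact Finset.mem_union_left _ (hρr hxρ)
          · exact Finset.mem_union_right _ (Finset.mem_sdiff.2 ⟨hx, hxρ⟩)
        · exact Finset.mem_union_left _ hx
      have h3 := (Finset.card_le_card h2).trans (Finset.card_union_le _ _)
      omega
    obtain ⟨r', h2, h3, h4, h5⟩ := ih (m ∪ r) hpm (hρr.trans Finset.subset_union_right)
      (fun χ hχ => hdep χ (List.mem_cons_of_mem _ hχ)) (by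
        refine le_trans (Nat.mul_le_mul_left _ ?_) hn
        omega)
    refine ⟨r', h2, Finset.subset_union_right.trans h3, ?_, ?_⟩
    · rw [List.length_cons, Nat.succ_mul]
      omega
    · intro χ hχ
      rcases List.mem_cons.1 hχ with rfl | hχ
      · exact ⟨m, b, hm, Finset.subset_union_left.trans h3⟩
      · exact h5 χ hχ

/-- **SND** -/
theorem t_SND (h1 : S_ROO) (h2 : S_WLD) : S_SND := by
  classical
  intro p q n k L t r₀ l ρ T π hp hq hk hdvd hr₀ hU hρ hcard h2k hdep hT0 hLC hπ
  have hline : ∀ B ∈ π, B ∈ Occurring π := fun B hB => ⟨B, hB, self_mem_subs' B⟩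
  suffices H : ∀ (N : ℕ) (u : List (Fml p (Finset (Fin n)))) (A : Fml p (Finset (Fin n)))
      (r : List (Fml p (Finset (Fin n)))), π = u ++ A :: r → u.length = N →
      ∀ (m : Finset (Finset (Fin n))) (b : Bool), Br q (T A) ρ m b → b = true by
    intro A hA m b hm
    obtain ⟨u, r, hur⟩ := List.append_of_mem hA
    exact H u.length u A r hur rfl m b hm
  intro N
  induction N using Nat.strong_induction_on with
  | _ N ih =>
    intro u A rr hu hN m b hm
    obtain ⟨Pr, hPr, hPrL, S, hSL, hSocc, hinf⟩ := hπ A u rr hu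
    have hAπ : A ∈ π := by
      rw [hu]
      exact List.mem_append_right _ List.mem_cons_self
    have hPrπ : ∀ B ∈ Pr, B ∈ π := fun B hB => by
      rw [hu]
      exact List.mem_append_left _ (hPr B hB)
    have hρm : ρ ⊆ m := hm.subset
    have hmpm : PM q m := hm.pm hρ
    have hmc : m.card ≤ ρ.card + t := by
      have h3 := hdep A (hline A hAπ) m hm.reach
      have h4 := Finset.card_sdiff_add_card_eq_card hρm
      omega
    have hlen : (Pr ++ S).length ≤ 2 * L := by
      rw [List.length_append]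
      omega
    have hlen2 : (Pr ++ S).length * t ≤ 2 * L * t := Nat.mul_le_mul_right _ hlen
    have e0 : (2 * L + 3) * (t + 1) = 2 * L * t + 3 * t + 2 * L + 3 := by ring
    obtain ⟨r, hr1, hr2, hr3, hr4⟩ := extend h1 hq (t := t) T (Pr ++ S) m hmpm hρm
      (fun ψ hψ => by
        rcases List.mem_append.1 hψ with hψ | hψ
        · exact hdep ψ (hline ψ (hPrπ ψ hψ))
        · exact hdep ψ (hSocc ψ hψ)) (by
        refine le_trans (Nat.mul_le_mul_left _ ?_)
          ((Nat.le_add_right _ k).trans ((Nat.le_add_right _ r₀).trans hcard))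
        omega)
    have hrc : r.card + t + 1 ≤ ρ.card + (2 * L + 3) * (t + 1) := by
      omega
    have hqr : q * (r.card + t + 1) + k + r₀ ≤ n := by
      have := Nat.mul_le_mul_left q hrc
      omega
    have hqr2 : q * r.card ≤ q * (r.card + t + 1) := Nat.mul_le_mul_left _ (by omega)
    have hcov : (cov r).card = q * r.card := hr1.card_cov
    obtain ⟨R, c, hRU, hRc, hcR, hcl, hfree⟩ := hU (cov r) (by omega)
    obtain ⟨a, ha⟩ := hdvd
    have hsd : (Finset.univ \ (R ∪ cov r)).card = q * (a - r.card) := by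
      rw [Finset.card_sdiff_of_subset (Finset.subset_univ _), Finset.card_univ,
        Fintype.card_fin, Finset.card_union_of_disjoint hRU, hRc, hcov, Nat.mul_sub, ← ha]
      omega
    obtain ⟨Q, hQ1, hQ2⟩ := exists_part (q := q) (a - r.card) _ hsd
    have hdis : Disjoint (cov r) (cov Q) := by
      rw [hQ2]
      exact Finset.disjoint_of_subset_left Finset.subset_union_right Finset.disjoint_sdiff
    have hPs : Pseudo q R.card (r ∪ Q) R := by
      refine ⟨rfl, hr1.union hQ1 hdis, ?_⟩
      rw [cov_union, hQ2]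
      ext x
      simp only [Finset.mem_union, Finset.mem_sdiff, Finset.mem_univ, true_and, not_or]
      constructor
      · rintro (hx | hx)
        · exact fun hxR => Finset.disjoint_left.1 hRU hxR hx
        · exact hx.1
      · intro hx
        by_cases hxr : x ∈ cov r
        · exact Or.inl hxr
        · exact Or.inr ⟨hx, hxr⟩
    obtain ⟨w, hw1, hw2⟩ := h2 p q n k l t ρ r (r ∪ Q) R c T (Occurring π) hp hq hcR hcl hk hfree
      hPs (hρm.trans hr2) Finset.subset_union_left (by rw [hRc]; omega) (by omega) h2k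
      (occ_closed π) hdep (by rw [hRc]; exact hT0) hLC
    have hwA : w A := by
      refine hinf w (fun ψ hψ => ?_) (fun B hB => ?_)
      · exact hw2 ψ (hSocc ψ hψ) (hr4 ψ (List.mem_append_right _ hψ))
      · obtain ⟨m', b', hm', hmr'⟩ := hr4 B (List.mem_append_left _ hB)
        rw [hw1 B (hline B (hPrπ B hB)) m' b' hm' hmr']
        obtain ⟨u1, u2, hu12⟩ := List.append_of_mem (hPr B hB)
        refine ih u1.length ?_ u1 B (u2 ++ A :: rr) ?_ rfl m' b' hm'
        · rw [← hN, hu12, List.length_append, List.length_cons]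
          omega
        · rw [hu, hu12, List.append_assoc, List.cons_append]
    exact (hw1 A (hline A hAπ) m b hm hr2).1 hwA

end Pool.Agent.L0h84.AS
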